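import Pool.Agent.Helper32.D4.Sys
import Pool.Agent.Rect.Perc.Build

/-!
# D4: the dynamics of the link patterns simulates the dynamics of the connections (helper32)
-/

namespace D4

open H47Perc.RC

variable {P : Type*} (S : RegSys P)

/-- the moves on `Option P` (`none` = two defects contracted) -/
def IP : Interp (Option P) where
  up := fun x => x.map (S.cup 0)
  dn := fun x => x.bind (S.cap 0)
  tl := fun i b x => if i % 2 = 1 then (if b then x.bind (S.e i) else x) else (if b then x else x.bind (S.e i))

/-- the relation `R` describes the odd regions and the root of the state `s` with `K` strands -/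
def Sm (K : ℕ) : Option P → Rl → Prop
  | some w, R => S.N w = K ∧
      (∀ i j, i % 2 = 1 → j % 2 = 1 → i ≤ K → j ≤ K → (R (some i) (some j) ↔ S.rel w i j)) ∧
      (∀ j, j % 2 = 1 → j ≤ K → (R none (some j) ↔ S.root w j)) ∧
      (∀ j, j % 2 = 1 → j ≤ K → (R (some j) none ↔ S.root w j))
  | none, R => ∀ j, j % 2 = 1 → j ≤ K → ¬ R none (some j) ∧ ¬ R (some j) none

variable {S}

theorem Sm.up {K : ℕ} {s : Option P} {R : Rl} (h : Sm S K s R) : Sm S (K + 2) (s.map (S.cup 0)) (upR R) := by
  have key : ∀ (x' y' : Option ℕ) (x y : ℕ), some x = x'.map (· + 2) → some y = y'.map (· + 2) →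
      2 ≤ x ∧ 2 ≤ y ∧ x' = some (x - 2) ∧ y' = some (y - 2) := by
    intro x' y' x y hx hy
    cases x' with
    | none => simp at hx
    | some a =>
      cases y' with
      | none => simp at hy
      | some b =>
        simp only [Option.map_some, Option.some.injEq] at hx hy
        subst hx hy
        refine ⟨by omega, by omega, ?_, ?_⟩ <;> simp
  have ss : ∀ x y : ℕ, upR R (some x) (some y) ↔ x = y ∨ (2 ≤ x ∧ 2 ≤ y ∧ R (some (x - 2)) (some (y - 2))) := by
    intro x y
    constructor
    · rintro (h | ⟨x', y', h1, h2, h3⟩)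
      · exact Or.inl (by simpa using h)
      · obtain ⟨h4, h5, rfl, rfl⟩ := key x' y' x y h1 h2
        exact Or.inr ⟨h4, h5, h3⟩
    · rintro (h | ⟨h1, h2, h3⟩)
      · exact Or.inl (by simp [h])
      · refine Or.inr ⟨some (x - 2), some (y - 2), ?_, ?_, h3⟩
        · simp only [Option.map_some, Option.some.injEq]; omega
        · simp only [Option.map_some, Option.some.injEq]; omega
  have ns : ∀ y : ℕ, upR R none (some y) ↔ (2 ≤ y ∧ R none (some (y - 2))) := by
    intro y
    constructor
    · rintro (h | ⟨x', y', h1, h2, h3⟩)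
      · simp at h
      · cases x' with
        | some a => simp at h1
        | none =>
          cases y' with
          | none => simp at h2
          | some b =>
            simp only [Option.map_some, Option.some.injEq] at h2
            subst h2
            exact ⟨by omega, by simpa using h3⟩
    · rintro ⟨h2, h3⟩
      refine Or.inr ⟨none, some (y - 2), rfl, ?_, h3⟩
      simp only [Option.map_some, Option.some.injEq]; omega
  have sn : ∀ y : ℕ, upR R (some y) none ↔ (2 ≤ y ∧ R (some (y - 2)) none) := by
    intro y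
    constructor
    · rintro (h | ⟨x', y', h1, h2, h3⟩)
      · simp at h
      · cases y' with
        | some a => simp at h2
        | none =>
          cases x' with
          | none => simp at h1
          | some b =>
            simp only [Option.map_some, Option.some.injEq] at h1
            subst h1
            exact ⟨by omega, by simpa using h3⟩
    · rintro ⟨h2, h3⟩
      refine Or.inr ⟨some (y - 2), none, ?_, rfl, h3⟩
      simp only [Option.map_some, Option.some.injEq]; omega
  cases s with
  | none =>
    intro j hj hjK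
    rw [ns, sn]
    refine ⟨fun h' => ?_, fun h' => ?_⟩
    · exact (h (j - 2) (by omega) (by omega)).1 h'.2
    · exact (h (j - 2) (by omega) (by omega)).2 h'.2
  | some w =>
    obtain ⟨hN, h1, h2, h3⟩ := h
    refine ⟨by rw [S.N_cup 0 w (Nat.zero_le _), hN], ?_, ?_, ?_⟩
    · intro i j hi hj hiK hjK
      rw [S.rel_cup 0 w (Nat.zero_le _) i j (by omega) (by omega), ss]
      by_cases hi1 : i = 1
      · subst hi1
        constructor
        · rintro (h | ⟨h, _⟩)
          · exact Or.inl ⟨rfl, h.symm⟩
          · omega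
        · rintro (⟨_, h⟩ | ⟨h, _⟩)
          · exact Or.inl h.symm
          · exact absurd rfl h
      by_cases hj1 : j = 1
      · subst hj1
        constructor
        · rintro (h | ⟨_, h, _⟩)
          · exact absurd h hi1
          · omega
        · rintro (⟨h, _⟩ | ⟨_, h, _⟩)
          · exact absurd h hi1
          · exact absurd rfl h
      have e1 : pi 0 i = i - 2 := if_neg (by omega)
      have e2 : pi 0 j = j - 2 := if_neg (by omega)
      rw [e1, e2, ← h1 (i - 2) (j - 2) (by omega) (by omega) (by omega) (by omega)]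
      constructor
      · rintro (h | ⟨_, _, h⟩)
        · refine Or.inr ⟨hi1, hj1, ?_⟩
          subst h
          rw [h1 _ _ (by omega) (by omega) (by omega) (by omega)]
          exact S.refl w _ (by omega)
        · exact Or.inr ⟨hi1, hj1, h⟩
      · rintro (⟨h, _⟩ | ⟨_, _, h⟩)
        · exact absurd h hi1
        · exact Or.inr ⟨by omega, by omega, h⟩
    · intro j hj hjK
      rw [ns, S.root_cup 0 w (Nat.zero_le _) j (by omega)]
      by_cases hj1 : j = 1
      · subst hj1
        constructor
        · rintro ⟨h, _⟩; omega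
        · rintro ⟨h, _⟩; exact absurd rfl h
      have e2 : pi 0 j = j - 2 := if_neg (by omega)
      rw [e2, ← h2 (j - 2) (by omega) (by omega)]
      exact ⟨fun h => ⟨hj1, h.2⟩, fun h => ⟨by omega, h.2⟩⟩
    · intro j hj hjK
      rw [sn, S.root_cup 0 w (Nat.zero_le _) j (by omega)]
      by_cases hj1 : j = 1
      · subst hj1
        constructor
        · rintro ⟨h, _⟩; omega
        · rintro ⟨h, _⟩; exact absurd rfl h
      have e2 : pi 0 j = j - 2 := if_neg (by omega)
      rw [e2, ← h3 (j - 2) (by omega) (by omega)]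
      exact ⟨fun h => ⟨hj1, h.2⟩, fun h => ⟨by omega, h.2⟩⟩

theorem Sm.dn {K : ℕ} {s : Option P} {R : Rl} (h : Sm S (K + 2) s R) : Sm S K (s.bind (S.cap 0)) (dnR R) := by
  have ss : ∀ x y : ℕ, dnR R (some x) (some y) ↔ R (some (x + 2)) (some (y + 2)) := fun x y => Iff.rfl
  have ns : ∀ y : ℕ, dnR R none (some y) ↔ R none (some (y + 2)) := fun y => Iff.rfl
  have sn : ∀ y : ℕ, dnR R (some y) none ↔ R (some (y + 2)) none := fun y => Iff.rfl
  cases s with
  | none =>
    intro j hj hjK
    rw [ns, sn]
    exact h (j + 2) (by omega) (by omega)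
  | some w =>
    obtain ⟨hN, h1, h2, h3⟩ := h
    have hs : 0 + 2 ≤ S.N w := by omega
    rw [Option.bind_some]
    cases hc : S.cap 0 w with
    | none =>
      intro j hj hjK
      have hr := S.cap_none_root 0 w hs hc
      rw [ns, sn, h2 (j + 2) (by omega) (by omega), h3 (j + 2) (by omega) (by omega)]
      refine ⟨fun h' => ?_, fun h' => ?_⟩ <;>
      · have := hr _ h'
        omega
    | some w' =>
      have hN' := S.N_cap 0 w w' hs hc
      have hio : ∀ i, i % 2 = 1 → io 0 i = i + 2 := fun i hi => if_neg (by omega)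
      refine ⟨by omega, ?_, ?_, ?_⟩
      · intro i j hi hj hiK hjK
        rw [ss, h1 _ _ (by omega) (by omega) (by omega) (by omega),
          S.rel_cap 0 w w' hs hc i j (by omega) (by omega), hio i hi, hio j hj]
        constructor
        · exact fun h => Or.inl h
        · rintro (h | ⟨h, _⟩ | ⟨h, _⟩)
          · exact h
          · have := S.rel_par _ _ _ h; omega
          · have := S.rel_par _ _ _ h; omega
      · intro j hj hjK
        rw [ns, h2 _ (by omega) (by omega), S.root_cap 0 w w' hs hc j (by omega), hio j hj]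
        constructor
        · exact fun h => Or.inl h
        · rintro (h | ⟨h, _⟩ | ⟨h, _⟩)
          · exact h
          · have := S.rel_par _ _ _ h; omega
          · have := S.rel_par _ _ _ h; omega
      · intro j hj hjK
        rw [sn, h3 _ (by omega) (by omega), S.root_cap 0 w w' hs hc j (by omega), hio j hj]
        constructor
        · exact fun h => Or.inl h
        · rintro (h | ⟨h, _⟩ | ⟨h, _⟩)
          · exact h
          · have := S.rel_par _ _ _ h; omega
          · have := S.rel_par _ _ _ h; omega

theorem Sm.tile_odd {K : ℕ} {s : Option P} {R : Rl} (h : Sm S K s R) {i : ℕ} (hi : i % 2 = 1) (hK : i + 2 ≤ K) :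
    Sm S K (s.bind (S.e i)) (jnr R (some i) (some (i + 2))) := by
  cases s with
  | none =>
    intro j hj hjK
    have h1 := h j hj hjK
    have h2 := h i hi (by omega)
    have h3 := h (i + 2) (by omega) hK
    constructor
    · rintro (h' | ⟨h', _⟩ | ⟨h', _⟩)
      · exact h1.1 h'
      · exact h2.1 h'
      · exact h3.1 h'
    · rintro (h' | ⟨_, h'⟩ | ⟨_, h'⟩)
      · exact h1.2 h'
      · exact h3.2 h'
      · exact h2.2 h'
  | some w =>
    obtain ⟨hN, h1, h2, h3⟩ := h
    have hs : i + 2 ≤ S.N w := by omega
    rw [Option.bind_some]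
    cases hc : S.e i w with
    | none =>
      exfalso
      obtain ⟨i0, hi0⟩ := S.alive w
      have h4 := S.e_none_root hs hc hi0
      have h5 := S.root_par w i0 hi0
      omega
    | some w' =>
      have hN' := S.N_e hs hc
      refine ⟨by omega, ?_, ?_, ?_⟩
      · intro x y hx hy hxK hyK
        rw [S.rel_e hs hc (by omega) (by omega)]
        unfold jnr Mg
        rw [h1 x y hx hy hxK hyK, h1 x i hx hi hxK (by omega), h1 x (i + 2) hx (by omega) hxK hK,
          h1 i y hi hy (by omega) hyK, h1 (i + 2) y (by omega) hy hK hyK]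
        constructor
        · exact fun h => Or.inr ⟨by omega, by omega, h⟩
        · rintro (⟨h, _⟩ | ⟨_, _, h⟩)
          · omega
          · exact h
      · intro y hy hyK
        rw [S.root_e hs hc (by omega)]
        unfold jnr Mr
        rw [h2 y hy hyK, h2 i hi (by omega), h2 (i + 2) (by omega) hK, h1 i y hi hy (by omega) hyK,
          h1 (i + 2) y (by omega) hy hK hyK]
        constructor
        · rintro (h | ⟨h, h'⟩ | ⟨h, h'⟩)
          · exact ⟨by omega, Or.inl h⟩
          · exact ⟨by omega, Or.inr (Or.inr ⟨S.symm _ _ _ h', h⟩)⟩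
          · exact ⟨by omega, Or.inr (Or.inl ⟨S.symm _ _ _ h', h⟩)⟩
        · rintro ⟨_, h | ⟨h, h'⟩ | ⟨h, h'⟩⟩
          · exact Or.inl h
          · exact Or.inr (Or.inr ⟨h', S.symm _ _ _ h⟩)
          · exact Or.inr (Or.inl ⟨h', S.symm _ _ _ h⟩)
      · intro y hy hyK
        rw [S.root_e hs hc (by omega)]
        unfold jnr Mr
        rw [h3 y hy hyK, h3 i hi (by omega), h3 (i + 2) (by omega) hK, h1 y i hy hi hyK (by omega),
          h1 y (i + 2) hy (by omega) hyK hK]
        constructor
        · rintro (h | ⟨h, h'⟩ | ⟨h, h'⟩)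
          · exact ⟨by omega, Or.inl h⟩
          · exact ⟨by omega, Or.inr (Or.inl ⟨h, h'⟩)⟩
          · exact ⟨by omega, Or.inr (Or.inr ⟨h, h'⟩)⟩
        · rintro ⟨_, h | ⟨h, h'⟩ | ⟨h, h'⟩⟩
          · exact Or.inl h
          · exact Or.inr (Or.inl ⟨h, h'⟩)
          · exact Or.inr (Or.inr ⟨h, h'⟩)

theorem Sm.tile_even {K : ℕ} {s : Option P} {R : Rl} (h : Sm S K s R) {i : ℕ} (hi : i % 2 = 0) (hK : i + 2 ≤ K) :
    Sm S K (s.bind (S.e i)) (isr R (some (i + 1))) := by
  cases s with
  | none =>
    intro j hj hjK
    have h1 := h j hj hjK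
    constructor
    · rintro (h' | ⟨_, _, h'⟩)
      · simp at h'
      · exact h1.1 h'
    · rintro (h' | ⟨_, _, h'⟩)
      · simp at h'
      · exact h1.2 h'
  | some w =>
    obtain ⟨hN, h1, h2, h3⟩ := h
    have hs : i + 2 ≤ S.N w := by omega
    rw [Option.bind_some]
    cases hc : S.e i w with
    | none =>
      intro j hj hjK
      constructor
      · rintro (h' | ⟨_, h4, h'⟩)
        · simp at h'
        · rw [h2 j hj hjK] at h'
          exact h4 (by rw [S.e_none_root hs hc h'])
      · rintro (h' | ⟨h4, _, h'⟩)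
        · simp at h'
        · rw [h3 j hj hjK] at h'
          exact h4 (by rw [S.e_none_root hs hc h'])
    | some w' =>
      have hN' := S.N_e hs hc
      have hMg : ∀ x y, x % 2 = 1 → (Mg (S.rel w) i (i + 2) x y ↔ S.rel w x y) := by
        intro x y hx
        constructor
        · rintro (h | ⟨h, _⟩ | ⟨h, _⟩)
          · exact h
          · have := S.rel_par _ _ _ h; omega
          · have := S.rel_par _ _ _ h; omega
        · exact fun h => Or.inl h
      have hMr : ∀ x, x % 2 = 1 → (Mr (S.rel w) (S.root w) i (i + 2) x ↔ S.root w x) := by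
        intro x hx
        constructor
        · rintro (h | ⟨h, _⟩ | ⟨h, _⟩)
          · exact h
          · have := S.rel_par _ _ _ h; omega
          · have := S.rel_par _ _ _ h; omega
        · exact fun h => Or.inl h
      refine ⟨by omega, ?_, ?_, ?_⟩
      · intro x y hx hy hxK hyK
        rw [S.rel_e hs hc (by omega) (by omega), hMg x y hx]
        unfold isr
        rw [h1 x y hx hy hxK hyK]
        simp only [Option.some.injEq, ne_eq]
        constructor
        · rintro (h | h)
          · subst h
            by_cases h' : x = i + 1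
            · exact Or.inl ⟨h', h'⟩
            · exact Or.inr ⟨h', h', S.refl w x (by omega)⟩
          · exact Or.inr h
        · rintro (⟨h, h'⟩ | h)
          · exact Or.inl (by omega)
          · exact Or.inr h
      · intro y hy hyK
        rw [S.root_e hs hc (by omega), hMr y hy]
        unfold isr
        rw [h2 y hy hyK]
        simp
      · intro y hy hyK
        rw [S.root_e hs hc (by omega), hMr y hy]
        unfold isr
        rw [h3 y hy hyK]
        simp

theorem Sm.tile {K : ℕ} {s : Option P} {R : Rl} (h : Sm S K s R) {i : ℕ} (b : Bool) (hK : i + 2 ≤ K) :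
    Sm S K ((IP S).tl i b s) (tlR i b R) := by
  unfold tlR
  show Sm S K (if i % 2 = 1 then (if b then s.bind (S.e i) else s) else (if b then s else s.bind (S.e i))) _
  by_cases hi : i % 2 = 1
  · rw [if_pos hi, if_pos hi]
    cases b with
    | true => simpa using h.tile_odd hi hK
    | false => simpa using h
  · rw [if_neg hi, if_neg hi]
    cases b with
    | true => simpa using h
    | false => simpa using h.tile_even (by omega) hK

theorem Sm.fwd {K : ℕ} (b : ℕ → Bool) : ∀ (k : ℕ) {s : Option P} {R : Rl}, k + 2 ≤ K → Sm S K s R →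
    Sm S K (H47Perc.RC.fwd (IP S) b k s) (H47Perc.RC.fwd IR b k R)
  | 0, _, _, _, h => h
  | k + 1, _, _, hk, h => (Sm.fwd b k (by omega) h).tile (b (k + 1)) hk

theorem Sm.bwd {K : ℕ} (b : ℕ → Bool) : ∀ (k : ℕ) {s : Option P} {R : Rl}, k + 2 ≤ K → Sm S K s R →
    Sm S K (H47Perc.RC.bwd (IP S) b k s) (H47Perc.RC.bwd IR b k R)
  | 0, _, _, _, h => h
  | k + 1, _, _, hk, h => Sm.bwd b k (by omega) (h.tile (b (k + 1)) hk)

theorem Sm.drow {K : ℕ} (b b' : ℕ → Bool) {s : Option P} {R : Rl} (h : Sm S K s R) :
    Sm S K (H47Perc.RC.drow (IP S) K b b' s) (H47Perc.RC.drow IR K b b' R) :=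
  (Sm.bwd b' K le_rfl (Sm.fwd b K le_rfl h.up)).dn

theorem Sm.drows {K : ℕ} (b : ℕ → ℕ → Bool) {s : Option P} {R : Rl} (h : Sm S K s R) :
    ∀ M, Sm S K (H47Perc.RC.drows (IP S) K b M s) (H47Perc.RC.drows IR K b M R)
  | 0 => h
  | M + 1 => (Sm.drows b h M).drow _ _

theorem Sm.init {n : ℕ} (hn : 1 ≤ n) : Sm S (2 * n) (some (S.b n)) (fun _ _ => True) := by
  refine ⟨S.N_b n, ?_, ?_, ?_⟩
  · intro i j hi hj hiK hjK
    rw [S.rel_b n hn i j hiK hjK]
    exact ⟨fun _ => Or.inr ⟨hi, hj⟩, fun _ => trivial⟩
  · intro j hj hjK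
    rw [S.root_b n hn j hjK]
    exact ⟨fun _ => hj, fun _ => trivial⟩
  · intro j hj hjK
    rw [S.root_b n hn j hjK]
    exact ⟨fun _ => hj, fun _ => trivial⟩

/-- **D4, word side**: the state is alive if and only if some odd region of the line is joined to the lower side -/
theorem alive_iff {n : ℕ} (hn : 1 ≤ n) (b : ℕ → ℕ → Bool) (M : ℕ) :
    H47Perc.RC.drows (IP S) (2 * n) b M (some (S.b n)) ≠ none ↔
      ∃ j, j % 2 = 1 ∧ j < 2 * n ∧ H47Perc.RC.drows IR (2 * n) b M (fun _ _ => True) none (some j) := by
  have h := Sm.drows (S := S) b (Sm.init hn) M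
  revert h
  generalize H47Perc.RC.drows (IP S) (2 * n) b M (some (S.b n)) = s
  generalize H47Perc.RC.drows IR (2 * n) b M (fun _ _ => True) = R
  intro h
  cases s with
  | none =>
    constructor
    · intro h'; exact absurd rfl h'
    · rintro ⟨j, h1, h2, h3⟩
      exact absurd h3 (h j h1 h2.le).1
  | some w =>
    obtain ⟨hN, h1, h2, h3⟩ := h
    constructor
    · intro _
      obtain ⟨j, hj⟩ := S.alive w
      have hp := S.root_par w j hj
      have hl := S.root_le w j hj
      exact ⟨j, hp, by omega, (h2 j hp (by omega)).2 hj⟩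
    · intro _; simp

/-- **D4, word side**: the state is `b` if and only if all odd regions of the line are joined to the lower side -/
theorem eq_b_iff {n : ℕ} (hn : 1 ≤ n) (b : ℕ → ℕ → Bool) (M : ℕ) :
    H47Perc.RC.drows (IP S) (2 * n) b M (some (S.b n)) = some (S.b n) ↔
      ∀ j, j % 2 = 1 → j < 2 * n → H47Perc.RC.drows IR (2 * n) b M (fun _ _ => True) none (some j) := by
  have h := Sm.drows (S := S) b (Sm.init hn) M
  revert h
  generalize H47Perc.RC.drows (IP S) (2 * n) b M (some (S.b n)) = s
  generalize H47Perc.RC.drows IR (2 * n) b M (fun _ _ => True) = R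
  intro h
  cases s with
  | none =>
    constructor
    · intro h'; simp at h'
    · intro h'
      exact absurd (h' 1 rfl (by omega)) (h 1 rfl (by omega)).1
  | some w =>
    obtain ⟨hN, h1, h2, h3⟩ := h
    constructor
    · intro h' j hj hjn
      rw [Option.some.injEq] at h'
      rw [h2 j hj hjn.le, h', S.root_b n hn j hjn.le]
      exact hj
    · intro h'
      rw [Option.some.injEq]
      refine S.eq_b n w hn hN ?_
      intro i hi hi1
      rw [← h2 i hi1 hi]
      exact h' i hi1 (by omega)

/-- transport of the dynamics to another type of states -/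
theorem drows_map {σ τ : Type*} (I : Interp σ) (J : Interp τ) (φ : σ → τ)
    (hup : ∀ s, φ (I.up s) = J.up (φ s)) (hdn : ∀ s, φ (I.dn s) = J.dn (φ s))
    (htl : ∀ i b s, φ (I.tl i b s) = J.tl i b (φ s)) (N : ℕ) (b : ℕ → ℕ → Bool) (M : ℕ) (s : σ) :
    φ (H47Perc.RC.drows I N b M s) = H47Perc.RC.drows J N b M (φ s) := by
  have hf : ∀ (b : ℕ → Bool) (k : ℕ) (s : σ), φ (H47Perc.RC.fwd I b k s) = H47Perc.RC.fwd J b k (φ s) := by
    intro b k
    induction k with
    | zero => intro s; rfl
    | succ k ih =>
      intro s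
      show φ (I.tl (k + 1) (b (k + 1)) (H47Perc.RC.fwd I b k s)) = J.tl _ _ (H47Perc.RC.fwd J b k (φ s))
      rw [htl, ih]
  have hb : ∀ (b : ℕ → Bool) (k : ℕ) (s : σ), φ (H47Perc.RC.bwd I b k s) = H47Perc.RC.bwd J b k (φ s) := by
    intro b k
    induction k with
    | zero => intro s; rfl
    | succ k ih =>
      intro s
      show φ (H47Perc.RC.bwd I b k (I.tl (k + 1) (b (k + 1)) s)) = H47Perc.RC.bwd J b k (J.tl _ _ (φ s))
      rw [ih, htl]
  induction M with
  | zero => rfl
  | succ M ih =>
    show φ (H47Perc.RC.drow I N _ _ (H47Perc.RC.drows I N b M s)) = H47Perc.RC.drow J N _ _ (H47Perc.RC.drows J N b M (φ s))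
    unfold H47Perc.RC.drow
    rw [hdn, hb, hf, hup, ih]

end D4
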