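import Pool.Agent.Helper32.D4.Sim
import Pool.Agent.Rect.Perc.Merge
import Pool.Agent.Helper9.DR.Poly

/-!
# D4: the dictionary for a tower (helper32)

`T : DR.Tower ℝ V`, `S : RegSys P`, `φ : Option P → V` the basis vectors (`φ none = 0`): the crossing probabilities are
matrix elements of the powers of the transfer matrix `T.Dh (2 n) 0 (1 / 2)`.
-/

namespace D4

open H47Perc.RC Finset
open Pool.Agent.Helper9.DR (Tower)

variable {P : Type*} {V : Type*} [AddCommGroup V] [Module ℝ V]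

/-- the moves in a tower -/
noncomputable def LT (T : Tower ℝ V) : LInterp ℝ V where
  up := T.c 0
  dn := T.k 0
  tl := fun i b => if i % 2 = 1 then (if b then T.e i else 1) else (if b then 1 else T.e i)

theorem LT_X (T : Tower ℝ V) (i : ℕ) : (LT T).X i = T.X i (1 / 2) := by
  have h : (LT T).X i = (2 : ℝ)⁻¹ • ((1 : Module.End ℝ V) + T.e i) := by
    show (2 : ℝ)⁻¹ • ((if i % 2 = 1 then (if (false : Bool) = true then T.e i else 1)
        else (if (false : Bool) = true then 1 else T.e i)) +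
      (if i % 2 = 1 then (if (true : Bool) = true then T.e i else 1)
        else (if (true : Bool) = true then 1 else T.e i))) = _
    by_cases hi : i % 2 = 1
    · simp [hi]
    · simp only [hi, if_false, if_true, Bool.false_eq_true]
      rw [add_comm]
  rw [h, T.X_def, smul_add]
  norm_num

theorem LT_T (T : Tower ℝ V) (N : ℕ) : (LT T).T N = T.Dh N 0 (1 / 2) := by
  have hA : ∀ (n k : ℕ), T.Ah n (k + 1) (1 / 2 : ℝ) =
      (LT T).B 0 * T.Ah n (k + 1) (1 / 2 : ℝ) * (LT T).F 0 := by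
    intro n k
    show _ = (1 : Module.End ℝ V) * T.Ah n (k + 1) (1 / 2 : ℝ) * (1 : Module.End ℝ V)
    rw [one_mul, mul_one]
  have key : ∀ n m : ℕ, (LT T).B (m + n) * (LT T).F (m + n) =
      (LT T).B m * T.Ah n (m + 1) (1 / 2 : ℝ) * (LT T).F m := by
    intro n
    induction n with
    | zero =>
      intro m
      show (LT T).B m * (LT T).F m = (LT T).B m * (1 : Module.End ℝ V) * (LT T).F m
      rw [mul_one]
    | succ n ih =>
      intro m
      have h1 := ih (m + 1)
      have e1 : m + 1 + n = m + (n + 1) := by ring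
      rw [e1] at h1
      rw [h1, T.Ah_succ]
      show ((LT T).B m * (LT T).X (m + 1)) * T.Ah n (m + 1 + 1) (1 / 2 : ℝ) * ((LT T).X (m + 1) * (LT T).F m) = _
      rw [LT_X]
      noncomm_ring
  have h2 := key N 0
  rw [zero_add] at h2
  show T.k 0 * ((LT T).B N * ((LT T).F N * T.c 0)) = _
  rw [← mul_assoc ((LT T).B N), h2]
  show T.k 0 * ((1 : Module.End ℝ V) * T.Ah N (0 + 1) (1 / 2 : ℝ) * (1 : Module.End ℝ V) * T.c 0) = _
  rw [one_mul, mul_one, ← mul_assoc]
  exact T.cap (fun _ => (1 / 2 : ℝ)) (fun _ => (1 / 2 : ℝ)) (List.replicate N ()) 0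

variable (S : RegSys P) (T : Tower ℝ V) (φ : Option P → V)

/-- the basis vectors of the patterns in the tower -/
structure Bas : Prop where
  none : φ none = 0
  c : ∀ s w, s ≤ S.N w → T.c s (φ (some w)) = φ (some (S.cup s w))
  k : ∀ s w, s + 2 ≤ S.N w → T.k s (φ (some w)) = φ (S.cap s w)

/-- a state with `K` strands and its vector -/
def Qs (K : ℕ) (x : Option P) (v : V) : Prop := v = φ x ∧ ∀ w, x = some w → S.N w = K

variable {S T φ}

theorem Qs.up (hB : Bas S T φ) {K : ℕ} {x : Option P} {v : V} (h : Qs S φ K x v) :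
    Qs S φ (K + 2) (x.map (S.cup 0)) (T.c 0 v) := by
  obtain ⟨rfl, h2⟩ := h
  cases x with
  | none => exact ⟨by rw [hB.none, map_zero]; exact hB.none.symm, fun w hw => by simp at hw⟩
  | some w =>
    refine ⟨by rw [hB.c 0 w (Nat.zero_le _)]; rfl, ?_⟩
    intro w' hw'
    rw [Option.map_some, Option.some.injEq] at hw'
    rw [← hw', S.N_cup 0 w (Nat.zero_le _), h2 w rfl]

theorem Qs.dn (hB : Bas S T φ) {K : ℕ} {x : Option P} {v : V} (h : Qs S φ (K + 2) x v) :
    Qs S φ K (x.bind (S.cap 0)) (T.k 0 v) := by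
  obtain ⟨rfl, h2⟩ := h
  cases x with
  | none => exact ⟨by rw [hB.none, map_zero]; exact hB.none.symm, fun w hw => by simp at hw⟩
  | some w =>
    have h3 := h2 w rfl
    refine ⟨by rw [hB.k 0 w (by omega)]; rfl, ?_⟩
    intro w' hw'
    rw [Option.bind_some] at hw'
    have := S.N_cap 0 w w' (by omega) hw'
    omega

theorem Qs.e (hB : Bas S T φ) {K : ℕ} {x : Option P} {v : V} (h : Qs S φ K x v) {i : ℕ} (hi : i + 2 ≤ K) :
    Qs S φ K (x.bind (S.e i)) (T.e i v) := by
  obtain ⟨rfl, h2⟩ := h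
  cases x with
  | none => exact ⟨by rw [hB.none, map_zero]; exact hB.none.symm, fun w hw => by simp at hw⟩
  | some w =>
    have h3 := h2 w rfl
    have hs : i + 2 ≤ S.N w := by omega
    refine ⟨?_, ?_⟩
    · rw [T.e_def, Module.End.mul_apply, hB.k i w hs, Option.bind_some]
      unfold RegSys.e
      cases hc : S.cap i w with
      | none => rw [hB.none, map_zero]; exact hB.none.symm
      | some w' =>
        have := S.N_cap i w w' hs hc
        rw [hB.c i w' (by omega)]
        rfl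
    · intro w' hw'
      rw [Option.bind_some] at hw'
      rw [S.N_e hs hw', h3]

theorem Qs.tl (hB : Bas S T φ) {K : ℕ} {x : Option P} {v : V} (h : Qs S φ K x v) {i : ℕ} (b : Bool)
    (hi : i + 2 ≤ K) : Qs S φ K ((IP S).tl i b x) ((LT T).toI.tl i b v) := by
  have h1 := h.e hB hi
  show Qs S φ K (if i % 2 = 1 then (if b then x.bind (S.e i) else x) else (if b then x else x.bind (S.e i)))
    ((if i % 2 = 1 then (if b then T.e i else 1) else (if b then 1 else T.e i) : Module.End ℝ V) v)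
  by_cases h2 : i % 2 = 1
  · rw [if_pos h2, if_pos h2]
    cases b with
    | true => simpa using h1
    | false => simpa using h
  · rw [if_neg h2, if_neg h2]
    cases b with
    | true => simpa using h
    | false => simpa using h1

theorem Qs.fwd (hB : Bas S T φ) {K : ℕ} (b : ℕ → Bool) : ∀ (k : ℕ) {x : Option P} {v : V}, k + 2 ≤ K →
    Qs S φ K x v → Qs S φ K (H47Perc.RC.fwd (IP S) b k x) (H47Perc.RC.fwd (LT T).toI b k v)
  | 0, _, _, _, h => h
  | k + 1, _, _, hk, h => (Qs.fwd hB b k (by omega) h).tl hB (b (k + 1)) hk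

theorem Qs.bwd (hB : Bas S T φ) {K : ℕ} (b : ℕ → Bool) : ∀ (k : ℕ) {x : Option P} {v : V}, k + 2 ≤ K →
    Qs S φ K x v → Qs S φ K (H47Perc.RC.bwd (IP S) b k x) (H47Perc.RC.bwd (LT T).toI b k v)
  | 0, _, _, _, h => h
  | k + 1, _, _, hk, h => Qs.bwd hB b k (by omega) (h.tl hB (b (k + 1)) hk)

theorem Qs.drow (hB : Bas S T φ) {K : ℕ} (b b' : ℕ → Bool) {x : Option P} {v : V} (h : Qs S φ K x v) :
    Qs S φ K (H47Perc.RC.drow (IP S) K b b' x) (H47Perc.RC.drow (LT T).toI K b b' v) :=
  Qs.dn hB (Qs.bwd hB b' K le_rfl (Qs.fwd hB b K le_rfl (Qs.up hB h)))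

theorem Qs.drows (hB : Bas S T φ) {K : ℕ} (b : ℕ → ℕ → Bool) {x : Option P} {v : V} (h : Qs S φ K x v) :
    ∀ M, Qs S φ K (H47Perc.RC.drows (IP S) K b M x) (H47Perc.RC.drows (LT T).toI K b M v)
  | 0 => h
  | M + 1 => (Qs.drows hB b h M).drow hB _ _

theorem Qs.topm (hB : Bas S T φ) {K : ℕ} (c : ℕ → Bool) : ∀ (m : ℕ) {x : Option P} {v : V}, 2 * m + 1 ≤ K →
    Qs S φ K x v → Qs S φ K (H47Perc.RC.topm (IP S) c m x) (H47Perc.RC.topm (LT T).toI c m v)
  | 0, _, _, _, h => h
  | m + 1, _, _, hk, h => (Qs.topm hB c m (by omega) h).tl hB (c m) (by omega)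

theorem Sm.topm {K : ℕ} (c : ℕ → Bool) : ∀ (m : ℕ) {s : Option P} {R : Rl}, 2 * m + 1 ≤ K → Sm S K s R →
    Sm S K (H47Perc.RC.topm (IP S) c m s) (H47Perc.RC.topm IR c m R)
  | 0, _, _, _, h => h
  | m + 1, _, _, hk, h => (Sm.topm c m (by omega) h).tile (c m) (by omega)

/-- the state is `b` if and only if all odd regions are joined to the lower side -/
theorem Sm.eq_b {n : ℕ} (hn : 1 ≤ n) {s : Option P} {R : Rl} (h : Sm S (2 * n) s R) :
    s = some (S.b n) ↔ ∀ j, j % 2 = 1 → j < 2 * n → R none (some j) := by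
  cases s with
  | none =>
    constructor
    · intro h'; simp at h'
    · intro h'
      exact absurd (h' 1 rfl (by omega)) (h 1 rfl (by omega)).1
  | some w =>
    obtain ⟨hN, h1, h2, h3⟩ := h
    constructor
    · intro h' j hj hjn
      rw [Option.some.injEq] at h'
      rw [h2 j hj hjn.le, h', S.root_b n hn j hjn.le]
      exact hj
    · intro h'
      rw [Option.some.injEq]
      refine S.eq_b n w hn hN ?_
      intro i hi hi1
      rw [← h2 i hi1 hi]
      exact h' i hi1 (by omega)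

theorem Sm.alive {n : ℕ} (hn : 1 ≤ n) {s : Option P} {R : Rl} (h : Sm S (2 * n) s R) :
    s ≠ none ↔ ∃ j, j % 2 = 1 ∧ j < 2 * n ∧ R none (some j) := by
  cases s with
  | none =>
    constructor
    · intro h'; exact absurd rfl h'
    · rintro ⟨j, h1, h2, h3⟩
      exact absurd h3 (h j h1 h2.le).1
  | some w =>
    obtain ⟨hN, h1, h2, h3⟩ := h
    constructor
    · intro _
      obtain ⟨j, hj⟩ := S.alive w
      have hp := S.root_par w j hj
      have hl := S.root_le w j hj
      exact ⟨j, hp, by omega, (h2 j hp (by omega)).2 hj⟩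
    · intro _; simp

/-- **D4**: the crossing probability as a sum of coefficients -/
theorem P_tower (hB : Bas S T φ) {n : ℕ} (hn : 1 ≤ n) (M : ℕ) (tot : V →ₗ[ℝ] ℝ)
    (htot : ∀ w, S.N w = 2 * n → tot (φ (some w)) = 1) :
    H47Perc.RC.P n M = tot ((T.Dh (2 * n) 0 (1 / 2) ^ M) (φ (some (S.b n)))) := by
  rw [P_eq (LT T) hn M (φ (some (S.b n))) tot ?_, LT_T]
  intro b
  have h1 := Sm.drows (S := S) b (Sm.init hn) M
  have h2 : Qs S φ (2 * n) (some (S.b n)) (φ (some (S.b n))) :=
    ⟨rfl, fun w hw => by rw [Option.some.injEq] at hw; rw [← hw]; exact S.N_b n⟩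
  have h3 := Qs.drows hB b h2 M
  have h4 := Sm.alive hn h1
  rw [← h4, h3.1]
  constructor
  · intro h5
    obtain ⟨w, hw⟩ := Option.ne_none_iff_exists'.1 h5
    rw [hw]
    exact htot w (h3.2 w hw)
  · intro h5
    rw [not_not] at h5
    rw [h5, hB.none, map_zero]

/-- **D4**: the probability that all upper sites are joined to the lower side as a coefficient -/
theorem pA_tower (hB : Bas S T φ) {n : ℕ} (hn : 1 ≤ n) (M : ℕ) (co : V →ₗ[ℝ] ℝ)
    (hb : co (φ (some (S.b n))) = 1) (hco : ∀ w, S.N w = 2 * n → w ≠ S.b n → co (φ (some w)) = 0) :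
    H47Perc.RC.pA n M = co ((T.Dh (2 * n) 0 (1 / 2) ^ M) (φ (some (S.b n)))) := by
  rw [pA_eq (LT T) (n := n) M (φ (some (S.b n))) co ?_, LT_T]
  intro b
  have h1 := Sm.drows (S := S) b (Sm.init hn) M
  have h2 : Qs S φ (2 * n) (some (S.b n)) (φ (some (S.b n))) :=
    ⟨rfl, fun w hw => by rw [Option.some.injEq] at hw; rw [← hw]; exact S.N_b n⟩
  have h3 := Qs.drows hB b h2 M
  have h4 := Sm.eq_b hn h1
  rw [← h4, h3.1]
  constructor
  · intro h5
    rw [h5]
    exact hb
  · intro h5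
    revert h5 h3
    generalize H47Perc.RC.drows (IP S) (2 * n) b M (some (S.b n)) = x
    intro h3 h5
    cases x with
    | none => rw [hB.none, map_zero]
    | some w => exact hco w (h3.2 w rfl) (fun h6 => h5 (by rw [h6]))

/-- **D4**, with merged upper sites -/
theorem sum_pI_tower (hB : Bas S T φ) {n : ℕ} (hn : 1 ≤ n) (M : ℕ) (co : V →ₗ[ℝ] ℝ)
    (hb : co (φ (some (S.b n))) = 1) (hco : ∀ w, S.N w = 2 * n → w ≠ S.b n → co (φ (some w)) = 0) :
    ∑ I ∈ (range (n - 1)).powerset, pI n M I =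
      co ((LT T).Pm (n - 1) ((T.Dh (2 * n) 0 (1 / 2) ^ M) (φ (some (S.b n))))) := by
  rw [sum_pI_eq (LT T) hn M (φ (some (S.b n))) co ?_, LT_T]
  intro b c
  have h1 := Sm.topm c (n - 1) (by omega) (Sm.drows (S := S) b (Sm.init hn) M)
  have h2 : Qs S φ (2 * n) (some (S.b n)) (φ (some (S.b n))) :=
    ⟨rfl, fun w hw => by rw [Option.some.injEq] at hw; rw [← hw]; exact S.N_b n⟩
  have h3 := Qs.topm hB c (n - 1) (by omega) (Qs.drows hB b h2 M)
  have h4 := Sm.eq_b hn h1
  rw [← h4, h3.1]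
  constructor
  · intro h5
    rw [h5]
    exact hb
  · intro h5
    revert h5 h3
    generalize H47Perc.RC.topm (IP S) c (n - 1) (H47Perc.RC.drows (IP S) (2 * n) b M (some (S.b n))) = x
    intro h3 h5
    cases x with
    | none => rw [hB.none, map_zero]
    | some w => exact hco w (h3.2 w rfl) (fun h6 => h5 (by rw [h6]))

/-- the operator `(1 + e_{2m-1}) ... (1 + e_1)` -/
theorem LT_Pm_succ (T : Tower ℝ V) (m : ℕ) : (LT T).Pm (m + 1) = (1 + T.e (2 * m + 1)) * (LT T).Pm m := by
  show ((LT T).tl (2 * m + 1) false + (LT T).tl (2 * m + 1) true) ∘ₗ (LT T).Pm m = _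
  have h1 : (LT T).tl (2 * m + 1) false = (1 : Module.End ℝ V) := by
    show (if (2 * m + 1) % 2 = 1 then (if (false : Bool) = true then T.e (2 * m + 1) else 1)
      else (if (false : Bool) = true then 1 else T.e (2 * m + 1))) = _
    rw [if_pos (by omega)]
    rfl
  have h2 : (LT T).tl (2 * m + 1) true = T.e (2 * m + 1) := by
    show (if (2 * m + 1) % 2 = 1 then (if (true : Bool) = true then T.e (2 * m + 1) else 1)
      else (if (true : Bool) = true then 1 else T.e (2 * m + 1))) = _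
    rw [if_pos (by omega)]
    rfl
  rw [h1, h2]
  rfl

end D4
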