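import Mathlib

/-!
# D4: link patterns with two defects seen through their regions (helper32)

A pattern `w` with `N w` strands (numbered `0, ..., N w - 1`) has the regions `0, ..., N w` (region `i` lies between the
strands `i - 1` and `i`).  `rel w i j` : the regions `i`, `j` are joined (the part of `w` between them is balanced).
`root w i` : the region `i` is joined to the region below (`i` is at level `0` between the two defects).

* `cup s` inserts a pair (two new neighbouring strands `s, s+1`, joined), `s ≤ N w`;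
* `cap s` contracts the strands `s, s+1`; the value is `none` if both are defects.
-/

namespace D4

/-- the old region of the region `i` after a pair has been inserted at `s` -/
def pi (s i : ℕ) : ℕ := if i ≤ s then i else i - 2

/-- the old region of the region `i` after the contraction of the strands `s, s+1` -/
def io (s i : ℕ) : ℕ := if i ≤ s then i else i + 2

/-- the relation `R` with the points `a` and `b` joined -/
def Mg (R : ℕ → ℕ → Prop) (a b : ℕ) (i j : ℕ) : Prop := R i j ∨ (R i a ∧ R b j) ∨ (R i b ∧ R a j)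

/-- the same for the root: `r` is the set of the regions joined to the root -/
def Mr (R : ℕ → ℕ → Prop) (r : ℕ → Prop) (a b : ℕ) (i : ℕ) : Prop := r i ∨ (R i a ∧ r b) ∨ (R i b ∧ r a)

/-- the properties of the regions of link patterns with two defects used by the percolation dictionary -/
structure RegSys (P : Type*) where
  /-- number of strands -/
  N : P → ℕ
  cup : ℕ → P → P
  cap : ℕ → P → Option P
  rel : P → ℕ → ℕ → Prop
  root : P → ℕ → Prop
  /-- `b n = |()()...()|` with `2 n` strands -/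
  b : ℕ → P
  refl : ∀ w i, i ≤ N w → rel w i i
  symm : ∀ w i j, rel w i j → rel w j i
  trans : ∀ w i j k, rel w i j → rel w j k → rel w i k
  root_root : ∀ w i j, root w i → root w j → rel w i j
  root_rel : ∀ w i j, root w i → rel w i j → root w j
  rel_le : ∀ w i j, rel w i j → i ≤ N w ∧ j ≤ N w
  root_le : ∀ w i, root w i → i ≤ N w
  rel_par : ∀ w i j, rel w i j → i % 2 = j % 2
  root_par : ∀ w i, root w i → i % 2 = 1
  /-- (R1) -/
  N_cup : ∀ s w, s ≤ N w → N (cup s w) = N w + 2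
  rel_cup : ∀ s w, s ≤ N w → ∀ i j, i ≤ N w + 2 → j ≤ N w + 2 →
    (rel (cup s w) i j ↔ (i = s + 1 ∧ j = s + 1) ∨ (i ≠ s + 1 ∧ j ≠ s + 1 ∧ rel w (pi s i) (pi s j)))
  root_cup : ∀ s w, s ≤ N w → ∀ i, i ≤ N w + 2 → (root (cup s w) i ↔ i ≠ s + 1 ∧ root w (pi s i))
  /-- (R2) -/
  N_cap : ∀ s w w', s + 2 ≤ N w → cap s w = some w' → N w' + 2 = N w
  rel_cap : ∀ s w w', s + 2 ≤ N w → cap s w = some w' → ∀ i j, i ≤ N w' → j ≤ N w' →
    (rel w' i j ↔ Mg (rel w) s (s + 2) (io s i) (io s j))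
  root_cap : ∀ s w w', s + 2 ≤ N w → cap s w = some w' → ∀ i, i ≤ N w' →
    (root w' i ↔ Mr (rel w) (root w) s (s + 2) (io s i))
  /-- (R3) -/
  cap_none : ∀ s w, s + 2 ≤ N w → (cap s w = none ↔ rel w 0 s ∧ rel w (s + 2) (N w))
  cap_none_root : ∀ s w, s + 2 ≤ N w → cap s w = none → ∀ i, root w i → i = s + 1
  /-- (R4) -/
  alive : ∀ w, ∃ i, root w i
  not_root_zero : ∀ w, ¬ root w 0
  not_root_N : ∀ w, ¬ root w (N w)
  not_rel : ∀ w, ¬ rel w 0 (N w)
  N_b : ∀ n, N (b n) = 2 * n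
  root_b : ∀ n, 1 ≤ n → ∀ i, i ≤ 2 * n → (root (b n) i ↔ i % 2 = 1)
  rel_b : ∀ n, 1 ≤ n → ∀ i j, i ≤ 2 * n → j ≤ 2 * n → (rel (b n) i j ↔ i = j ∨ (i % 2 = 1 ∧ j % 2 = 1))
  /-- the pattern is `b` if all odd regions are joined to the root -/
  eq_b : ∀ n w, 1 ≤ n → N w = 2 * n → (∀ i, i ≤ 2 * n → i % 2 = 1 → root w i) → w = b n

namespace RegSys

variable {P : Type*} (S : RegSys P)

/-- the tile `e_s` -/
def e (s : ℕ) (w : P) : Option P := (S.cap s w).map (S.cup s)

theorem N_e {s : ℕ} {w w' : P} (hs : s + 2 ≤ S.N w) (h : S.e s w = some w') : S.N w' = S.N w := by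
  unfold e at h
  cases hc : S.cap s w with
  | none => rw [hc] at h; simp at h
  | some v =>
    rw [hc] at h
    simp only [Option.map_some, Option.some.injEq] at h
    have h1 := S.N_cap s w v hs hc
    rw [← h, S.N_cup s v (by omega)]
    exact h1

theorem e_none {s : ℕ} {w : P} (hs : s + 2 ≤ S.N w) :
    S.e s w = none ↔ S.rel w 0 s ∧ S.rel w (s + 2) (S.N w) := by
  rw [← S.cap_none s w hs]
  unfold e
  exact Option.map_eq_none_iff

theorem e_none_root {s : ℕ} {w : P} (hs : s + 2 ≤ S.N w) (h : S.e s w = none) {i : ℕ} (hi : S.root w i) :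
    i = s + 1 := by
  unfold e at h
  exact S.cap_none_root s w hs (Option.map_eq_none_iff.mp h) i hi

theorem io_pi {s i : ℕ} (hi : i ≠ s + 1) : io s (pi s i) = i ∨ (io s (pi s i) = s ∧ i = s + 2) := by
  unfold io pi
  by_cases h : i ≤ s
  · rw [if_pos h, if_pos h]; exact Or.inl rfl
  · rw [if_neg h]
    by_cases h2 : i = s + 2
    · subst h2
      rw [if_pos (by omega)]
      exact Or.inr ⟨by omega, rfl⟩
    · rw [if_neg (by omega)]
      exact Or.inl (by omega)

theorem io_pi' {s i : ℕ} (hi : i ≠ s + 1) (w : P) (hN : s + 2 ≤ S.N w) (hi2 : i ≤ S.N w) :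
    Mg (S.rel w) s (s + 2) (io s (pi s i)) i := by
  rcases io_pi hi with h | ⟨h, h'⟩
  · rw [h]; exact Or.inl (S.refl w i hi2)
  · rw [h, h']
    exact Or.inr (Or.inl ⟨S.refl w s (by omega), S.refl w _ hN⟩)

theorem Mg_symm {w : P} {a b i j : ℕ} (h : Mg (S.rel w) a b i j) : Mg (S.rel w) a b j i := by
  rcases h with h | ⟨h1, h2⟩ | ⟨h1, h2⟩
  · exact Or.inl (S.symm _ _ _ h)
  · exact Or.inr (Or.inr ⟨S.symm _ _ _ h2, S.symm _ _ _ h1⟩)
  · exact Or.inr (Or.inl ⟨S.symm _ _ _ h2, S.symm _ _ _ h1⟩)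

theorem Mg_trans {w : P} {a b i j k : ℕ} (h : Mg (S.rel w) a b i j) (h' : Mg (S.rel w) a b j k) :
    Mg (S.rel w) a b i k := by
  have tr := fun {x y z} (h1 : S.rel w x y) (h2 : S.rel w y z) => S.trans w x y z h1 h2
  have sy := fun {x y} (h1 : S.rel w x y) => S.symm w x y h1
  rcases h with h | ⟨h1, h2⟩ | ⟨h1, h2⟩ <;> rcases h' with h' | ⟨h3, h4⟩ | ⟨h3, h4⟩
  · exact Or.inl (tr h h')
  · exact Or.inr (Or.inl ⟨tr h h3, h4⟩)
  · exact Or.inr (Or.inr ⟨tr h h3, h4⟩)
  · exact Or.inr (Or.inl ⟨h1, tr h2 h'⟩)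
  · exact Or.inr (Or.inl ⟨h1, h4⟩)
  · exact Or.inl (tr h1 h4)
  · exact Or.inr (Or.inr ⟨h1, tr h2 h'⟩)
  · exact Or.inl (tr h1 h4)
  · exact Or.inr (Or.inr ⟨h1, h4⟩)

theorem Mr_Mg {w : P} {a b i j : ℕ} (h : Mr (S.rel w) (S.root w) a b i) (h' : Mg (S.rel w) a b i j) :
    Mr (S.rel w) (S.root w) a b j := by
  have tr := fun {x y z} (h1 : S.rel w x y) (h2 : S.rel w y z) => S.trans w x y z h1 h2
  have sy := fun {x y} (h1 : S.rel w x y) => S.symm w x y h1
  have ro := fun {x y} (h1 : S.root w x) (h2 : S.rel w x y) => S.root_rel w x y h1 h2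
  rcases h with h | ⟨h1, h2⟩ | ⟨h1, h2⟩ <;> rcases h' with h' | ⟨h3, h4⟩ | ⟨h3, h4⟩
  · exact Or.inl (ro h h')
  · exact Or.inr (Or.inr ⟨sy h4, ro h h3⟩)
  · exact Or.inr (Or.inl ⟨sy h4, ro h h3⟩)
  · exact Or.inr (Or.inl ⟨tr (sy h') h1, h2⟩)
  · exact Or.inl (ro h2 h4)
  · exact Or.inr (Or.inl ⟨sy h4, h2⟩)
  · exact Or.inr (Or.inr ⟨tr (sy h') h1, h2⟩)
  · exact Or.inr (Or.inr ⟨sy h4, h2⟩)
  · exact Or.inl (ro h2 h4)

/-- **the tile `e_s` on the regions**: the region `s + 1` is isolated, the regions `s` and `s + 2` are joined -/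
theorem rel_e {s : ℕ} {w w' : P} (hs : s + 2 ≤ S.N w) (h : S.e s w = some w') {i j : ℕ} (hi : i ≤ S.N w)
    (hj : j ≤ S.N w) :
    S.rel w' i j ↔ (i = s + 1 ∧ j = s + 1) ∨ (i ≠ s + 1 ∧ j ≠ s + 1 ∧ Mg (S.rel w) s (s + 2) i j) := by
  unfold e at h
  cases hc : S.cap s w with
  | none => rw [hc] at h; simp at h
  | some v =>
    rw [hc] at h
    simp only [Option.map_some, Option.some.injEq] at h
    have h1 := S.N_cap s w v hs hc
    rw [← h, S.rel_cup s v (by omega) i j (by omega) (by omega)]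
    by_cases h2 : i = s + 1
    · simp [h2]
    by_cases h3 : j = s + 1
    · simp [h3]
    have hp : ∀ {i : ℕ}, i ≠ s + 1 → i ≤ S.N w → pi s i ≤ S.N v := by
      intro i hi1 hi2
      unfold pi
      by_cases h4 : i ≤ s
      · rw [if_pos h4]; omega
      · rw [if_neg h4]; omega
    simp only [h2, h3, false_and, not_false_eq_true, true_and, false_or, ne_eq]
    rw [S.rel_cap s w v hs hc _ _ (hp h2 hi) (hp h3 hj)]
    have hi' := S.io_pi' h2 w hs hi
    have hj' := S.io_pi' h3 w hs hj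
    constructor
    · intro h5
      exact S.Mg_trans (S.Mg_trans (S.Mg_symm hi') h5) hj'
    · intro h5
      exact S.Mg_trans (S.Mg_trans hi' h5) (S.Mg_symm hj')

theorem root_e {s : ℕ} {w w' : P} (hs : s + 2 ≤ S.N w) (h : S.e s w = some w') {i : ℕ} (hi : i ≤ S.N w) :
    S.root w' i ↔ i ≠ s + 1 ∧ Mr (S.rel w) (S.root w) s (s + 2) i := by
  unfold e at h
  cases hc : S.cap s w with
  | none => rw [hc] at h; simp at h
  | some v =>
    rw [hc] at h
    simp only [Option.map_some, Option.some.injEq] at h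
    have h1 := S.N_cap s w v hs hc
    rw [← h, S.root_cup s v (by omega) i (by omega)]
    by_cases h2 : i = s + 1
    · simp [h2]
    have hp : ∀ {i : ℕ}, i ≠ s + 1 → i ≤ S.N w → pi s i ≤ S.N v := by
      intro i hi1 hi2
      unfold pi
      by_cases h4 : i ≤ s
      · rw [if_pos h4]; omega
      · rw [if_neg h4]; omega
    simp only [h2, not_false_eq_true, true_and, ne_eq]
    rw [S.root_cap s w v hs hc _ (hp h2 hi)]
    have hi' := S.io_pi' h2 w hs hi
    exact ⟨fun h5 => S.Mr_Mg h5 hi', fun h5 => S.Mr_Mg h5 (S.Mg_symm hi')⟩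

end RegSys

end D4
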